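import Mathlib
import Pool.Agent.R252.Cara

/-!
# The Fekete–Szegő bound on `M_{α,β}` is not sharp for all `(α, β) ∈ R`

At `(α, β) = (0, 5/4)` and `λ = 1` the bound is `max(μ, |1 - λ|) = 3/4`, but
`|a₃ - a₂²| ≤ 143/192 < 3/4` for all `f ∈ M_{0,5/4}`.

Reason: with `q = f / (z f')` and `g = g_{0,5/4}` one has `g q = 1 + z q' / 4`. The coefficient of
`z⁴` of `q` drops out, which gives a polynomial relation between the first four coefficients of
`g`. This relation excludes the extremal functions of the Carathéodory inequalities.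
-/

set_option autoImplicit false

open Complex Set Metric Filter Topology
open Pool.Agent.R252.Cara

namespace Pool.Agent.Results.MP_dfd3b8_an.NotSharp

/-- The class `𝒜` of holomorphic functions on the unit disc with `f(0) = 0`, `f'(0) = 1`. -/
def IsNormalized (f : ℂ → ℂ) : Prop :=
  DifferentiableOn ℂ f (ball 0 1) ∧ f 0 = 0 ∧ deriv f 0 = 1

/-- The function `g_{α,β}` of `f`; the quotients `f(z)/z` and `z f'(z)/f(z)` are `1` at `0`. -/
noncomputable def gFun (α β : ℝ) (f : ℂ → ℂ) (z : ℂ) : ℂ :=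
  α * (if z = 0 then 1 else f z / z) + β * (if z = 0 then 1 else z * deriv f z / f z)
    + (1 - α - β) * (1 + z * deriv (deriv f) z / deriv f z)

/-- The class `M_{α,β}`. Membership includes that `g_{α,β}` is defined at every point of the disc:
`f(z) ≠ 0` for `z ≠ 0` if the term `z f'/f` is present (`β ≠ 0`), and `f'(z) ≠ 0` if the term
`1 + z f''/f'` is present (`α + β ≠ 1`). -/
def classM (α β : ℝ) : Set (ℂ → ℂ) :=
  {f | IsNormalized f ∧ (β ≠ 0 → ∀ z ∈ ball (0 : ℂ) 1, z ≠ 0 → f z ≠ 0) ∧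
    (α + β ≠ 1 → ∀ z ∈ ball (0 : ℂ) 1, deriv f z ≠ 0) ∧
    ∀ z ∈ ball (0 : ℂ) 1, (α + β) / 2 < (gFun α β f z).re}

/-- The Fekete–Szegő functional `Φ(f, λ) = a₃ - λ a₂²`, where `a_k = coeff f k` is the Taylor
coefficient `f^{(k)}(0) / k!`. -/
noncomputable def Phi (f : ℂ → ℂ) (lam : ℂ) : ℂ := coeff f 3 - lam * coeff f 2 ^ 2

/-- The parameter region `R`. -/
def region : Set (ℝ × ℝ) := {p | p.1 + p.2 < 2 ∧ 5 * p.1 + 4 * p.2 < 6}

/-- The number `μ(α, β)`. -/
noncomputable def mu (α β : ℝ) : ℝ := (2 - α - β) / (6 - 5 * α - 4 * β)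

section ode

variable {f : ℂ → ℂ}

/-- `f(z)/z` with the value `1` at the origin. -/
noncomputable def Ff (f : ℂ → ℂ) : ℂ → ℂ := dslope f 0

lemma eq_mul (h0 : f 0 = 0) (z : ℂ) : f z = z * Ff f z := by
  have := sub_smul_dslope f 0 z
  rw [sub_zero, h0, sub_zero, smul_eq_mul] at this
  exact this.symm

lemma Ff_diff (hf : DifferentiableOn ℂ f (ball 0 1)) : DifferentiableOn ℂ (Ff f) (ball 0 1) :=
  (Complex.differentiableOn_dslope (ball_mem_nhds 0 one_pos)).2 hf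

lemma diffAt {g : ℂ → ℂ} (hg : DifferentiableOn ℂ g (ball 0 1)) {z : ℂ} (hz : z ∈ ball (0 : ℂ) 1) :
    DifferentiableAt ℂ g z := hg.differentiableAt (isOpen_ball.mem_nhds hz)

lemma deriv_diff {g : ℂ → ℂ} (hg : DifferentiableOn ℂ g (ball 0 1)) :
    DifferentiableOn ℂ (deriv g) (ball 0 1) := hg.deriv isOpen_ball

lemma deriv_eq (hf : DifferentiableOn ℂ f (ball 0 1)) (h0 : f 0 = 0) {z : ℂ}
    (hz : z ∈ ball (0 : ℂ) 1) : deriv f z = Ff f z + z * deriv (Ff f) z := by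
  have h1 : f = fun z => z * Ff f z := funext fun z => eq_mul h0 z
  have h2 : HasDerivAt (fun z => z * Ff f z) (1 * Ff f z + z * deriv (Ff f) z) z :=
    (hasDerivAt_id z).mul (diffAt (Ff_diff hf) hz).hasDerivAt
  rw [one_mul] at h2
  conv_lhs => rw [h1]
  exact h2.deriv

/-- Iterated derivatives of `z ↦ z h(z)` at the origin. -/
lemma iter_id_mul {h : ℂ → ℂ} (hh : AnalyticAt ℂ h 0) (n : ℕ) :
    iteratedDeriv (n + 1) (fun z => z * h z) 0 = (n + 1) * iteratedDeriv n h 0 := by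
  have hid : ContDiffAt ℂ (n + 1 : ℕ) (fun z : ℂ => z) 0 := contDiffAt_id
  rw [iteratedDeriv_fun_mul hid hh.contDiffAt]
  rw [Finset.sum_eq_single 1]
  · rw [iteratedDeriv_fun_id_zero]
    simp
  · intro i _ hi
    rw [iteratedDeriv_fun_id_zero, if_neg hi]
    simp
  · intro hcon
    simp at hcon

end ode

/-- The algebra at the end. -/
lemma final_bound {m1 m2 m3 m4 : ℂ} (h3 : ‖m3‖ ≤ 1) (h4 : ‖m4‖ ≤ 1) (h2 : ‖m2‖ ≤ 1)
    (hc : ‖m2 - m1 ^ 2‖ ≤ 1 - ‖m1‖ ^ 2)
    (hres : m4 - 3 / 2 * m2 ^ 2 - 4 * m1 * m3 + 9 * m1 ^ 2 * m2 - 9 / 2 * m1 ^ 4 = 0) :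
    ‖m2 - m1 ^ 2‖ ≤ 143 / 144 := by
  by_contra hcon
  push Not at hcon
  have h1sq : ‖m1‖ ^ 2 < 1 / 144 := by linarith
  have h1 : ‖m1‖ < 1 / 12 := by
    by_contra hcon2
    push Not at hcon2
    nlinarith [norm_nonneg m1]
  have h2low : 142 / 144 < ‖m2‖ := by
    have : ‖m2 - m1 ^ 2‖ ≤ ‖m2‖ + ‖m1‖ ^ 2 := by
      have := norm_sub_le m2 (m1 ^ 2)
      rwa [norm_pow] at this
    linarith
  have hkey : 3 / 2 * m2 ^ 2 = m4 + (-(4 * m1 * m3) + (9 * m1 ^ 2 * m2 + -(9 / 2 * m1 ^ 4))) := by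
    linear_combination -hres
  have hn := congrArg norm hkey
  have hr : ‖m4 + (-(4 * m1 * m3) + (9 * m1 ^ 2 * m2 + -(9 / 2 * m1 ^ 4)))‖
      ≤ ‖m4‖ + (4 * ‖m1‖ * ‖m3‖ + (9 * ‖m1‖ ^ 2 * ‖m2‖ + 9 / 2 * ‖m1‖ ^ 4)) := by
    refine (norm_add_le _ _).trans (add_le_add le_rfl ?_)
    refine (norm_add_le _ _).trans (add_le_add ?_ ?_)
    · rw [norm_neg, norm_mul, norm_mul]; norm_num
    · refine (norm_add_le _ _).trans (add_le_add ?_ ?_)
      · rw [norm_mul, norm_mul, norm_pow]; norm_num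
      · rw [norm_neg, norm_mul, norm_pow]; norm_num
  rw [← hn, norm_mul, norm_pow] at hr
  have e32 : ‖(3 / 2 : ℂ)‖ = 3 / 2 := by norm_num
  rw [e32] at hr
  have a1 : 4 * ‖m1‖ * ‖m3‖ ≤ 4 * (1 / 12) * 1 := by
    have := norm_nonneg m1
    have := norm_nonneg m3
    nlinarith
  have a2 : 9 * ‖m1‖ ^ 2 * ‖m2‖ ≤ 9 * (1 / 144) * 1 := by
    have := norm_nonneg m2
    have := sq_nonneg ‖m1‖
    nlinarith
  have a3 : 9 / 2 * ‖m1‖ ^ 4 ≤ 9 / 2 * (1 / 144) ^ 2 := by
    have h5 : ‖m1‖ ^ 4 = (‖m1‖ ^ 2) ^ 2 := by ring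
    rw [h5]
    have := sq_nonneg ‖m1‖
    nlinarith
  have a4 : (142 / 144 : ℝ) ^ 2 < ‖m2‖ ^ 2 := by nlinarith
  nlinarith

/-- The main estimate. -/
theorem main_bound {f : ℂ → ℂ} (hf : f ∈ classM 0 (5 / 4)) : ‖Phi f 1‖ ≤ 143 / 192 := by
  obtain ⟨⟨hd, h0, h1⟩, hne, hne', hre⟩ := hf
  have hfne := hne (by norm_num)
  have hf'ne := hne' (by norm_num)
  have h0mem : (0 : ℂ) ∈ ball (0 : ℂ) 1 := mem_ball_self one_pos
  have hFd := Ff_diff hd
  have hF0 : Ff f 0 = 1 := by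
    unfold Ff
    rw [dslope_same, h1]
  have hFne : ∀ z ∈ ball (0 : ℂ) 1, Ff f z ≠ 0 := by
    intro z hz hcon
    by_cases hz0 : z = 0
    · rw [hz0, hF0] at hcon; exact one_ne_zero hcon
    · apply hfne z hz hz0
      rw [eq_mul h0 z, hcon, mul_zero]
  have hf'd := deriv_diff hd
  have hf''d := deriv_diff hf'd
  set q : ℂ → ℂ := fun z => Ff f z / deriv f z with hq
  have hqd : DifferentiableOn ℂ q (ball 0 1) := hFd.div hf'd hf'ne
  have hq0 : q 0 = 1 := by simp [hq, hF0, h1]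
  set G : ℂ → ℂ := fun z => 5 / 4 * (deriv f z / Ff f z)
    - 1 / 4 * (1 + z * deriv (deriv f) z / deriv f z) with hG
  have hGd : DifferentiableOn ℂ G (ball 0 1) := by
    apply DifferentiableOn.sub
    · exact (hf'd.div hFd hFne).const_mul _
    · exact (((differentiableOn_id.mul hf''d).div hf'd hf'ne).const_add 1).const_mul _
  have hG0 : G 0 = 1 := by simp [hG, hF0, h1]; norm_num
  have hGeq : ∀ z ∈ ball (0 : ℂ) 1, gFun 0 (5 / 4) f z = G z := by
    intro z hz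
    unfold gFun
    by_cases hz0 : z = 0
    · rw [hz0, hG0]; norm_num
    · rw [if_neg hz0, if_neg hz0]
      have h5 : z * deriv f z / f z = deriv f z / Ff f z := by
        rw [eq_mul h0 z, mul_div_mul_left _ _ hz0]
      rw [h5, hG]
      push_cast
      ring
  have hGre : ∀ z ∈ ball (0 : ℂ) 1, 5 / 8 < (G z).re := by
    intro z hz
    have := hre z hz
    rw [hGeq z hz] at this
    norm_num at this ⊢
    exact this
  -- the differential equation
  have hode : ∀ z ∈ ball (0 : ℂ) 1, G z * q z = 1 + 1 / 4 * (z * deriv q z) := by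
    intro z hz
    have e1 : deriv q z = (deriv (Ff f) z * deriv f z - Ff f z * deriv (deriv f) z)
        / deriv f z ^ 2 :=
      ((diffAt hFd hz).hasDerivAt.div (diffAt hf'd hz).hasDerivAt (hf'ne z hz)).deriv
    have e2 := deriv_eq hd h0 hz
    have e3 := hf'ne z hz
    have e4 := hFne z hz
    rw [e1]
    simp only [hG, hq]
    have e5 : z * deriv (Ff f) z = deriv f z - Ff f z := by rw [e2]; ring
    have e6 : z * ((deriv (Ff f) z * deriv f z - Ff f z * deriv (deriv f) z) / deriv f z ^ 2)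
        = ((deriv f z - Ff f z) * deriv f z - z * Ff f z * deriv (deriv f) z)
          / deriv f z ^ 2 := by
      rw [← e5]; ring
    rw [e6]
    field_simp
    ring
  -- analyticity at the origin
  have hqa : AnalyticAt ℂ q 0 := hqd.analyticAt (ball_mem_nhds 0 one_pos)
  have hGa : AnalyticAt ℂ G 0 := hGd.analyticAt (ball_mem_nhds 0 one_pos)
  have hfa : AnalyticAt ℂ f 0 := hd.analyticAt (ball_mem_nhds 0 one_pos)
  have hf'a : AnalyticAt ℂ (deriv f) 0 := hfa.deriv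
  have hev : (fun z => G z * q z) =ᶠ[𝓝 0] fun z => 1 + 1 / 4 * (z * deriv q z) := by
    filter_upwards [ball_mem_nhds (0 : ℂ) one_pos] with z hz
    exact hode z hz
  have hrhs : ∀ n : ℕ, iteratedDeriv (n + 1) (fun z => 1 + 1 / 4 * (z * deriv q z)) 0
      = 1 / 4 * ((n + 1) * iteratedDeriv (n + 1) q 0) := by
    intro n
    have hza : AnalyticAt ℂ (fun z => z * deriv q z) 0 := analyticAt_id.mul hqa.deriv
    have e1 : iteratedDeriv (n + 1) (fun z => 1 + 1 / 4 * (z * deriv q z)) 0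
        = iteratedDeriv (n + 1) (fun _ : ℂ => (1 : ℂ)) 0
          + iteratedDeriv (n + 1) (fun z => 1 / 4 * (z * deriv q z)) 0 :=
      iteratedDeriv_fun_add contDiffAt_const (contDiffAt_const.mul hza.contDiffAt)
    rw [e1, iteratedDeriv_const, if_neg (Nat.succ_ne_zero n), zero_add,
      iteratedDeriv_const_mul_field, iter_id_mul hqa.deriv, iteratedDeriv_succ']
  have hlhs : ∀ n : ℕ, iteratedDeriv n (fun z => G z * q z) 0
      = ∑ i ∈ Finset.range (n + 1), n.choose i * iteratedDeriv i G 0 * iteratedDeriv (n - i) q 0 :=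
    fun n => iteratedDeriv_fun_mul hGa.contDiffAt hqa.contDiffAt
  have hrec : ∀ n : ℕ, ∑ i ∈ Finset.range (n + 1 + 1), (n + 1).choose i * iteratedDeriv i G 0
      * iteratedDeriv (n + 1 - i) q 0 = 1 / 4 * ((n + 1) * iteratedDeriv (n + 1) q 0) := by
    intro n
    rw [← hlhs, hev.iteratedDeriv_eq, hrhs]
  have r1 := hrec 0
  have r2 := hrec 1
  have r3 := hrec 2
  have r4 := hrec 3
  have c42 : Nat.choose 4 2 = 6 := by decide
  simp [Finset.sum_range_succ, hG0, hq0, c42] at r1 r2 r3 r4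
  -- the coefficients of `f`
  have hevf : f =ᶠ[𝓝 0] fun z => z * (q z * deriv f z) := by
    filter_upwards [ball_mem_nhds (0 : ℂ) one_pos] with z hz
    have e3 := hf'ne z hz
    have e4 : q z * deriv f z = Ff f z := by simp only [hq]; field_simp
    rw [e4]
    exact eq_mul h0 z
  have hqf : AnalyticAt ℂ (fun z => q z * deriv f z) 0 := hqa.mul hf'a
  have hcf : ∀ n : ℕ, iteratedDeriv (n + 1) f 0 = (n + 1) * ∑ i ∈ Finset.range (n + 1),
      n.choose i * iteratedDeriv i q 0 * iteratedDeriv (n - i) (deriv f) 0 := by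
    intro n
    rw [hevf.iteratedDeriv_eq, iter_id_mul hqf,
      iteratedDeriv_fun_mul hqa.contDiffAt hf'a.contDiffAt]
  have s2 := hcf 1
  have s3 := hcf 2
  have t1 : iteratedDeriv 1 (deriv f) 0 = iteratedDeriv 2 f 0 := by rw [iteratedDeriv_succ' (n := 1)]
  have t2 : iteratedDeriv 2 (deriv f) 0 = iteratedDeriv 3 f 0 := by rw [iteratedDeriv_succ' (n := 2)]
  rw [Finset.sum_range_succ, Finset.sum_range_succ, Finset.sum_range_zero] at s2
  rw [Finset.sum_range_succ, Finset.sum_range_succ, Finset.sum_range_succ,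
    Finset.sum_range_zero] at s3
  simp only [Nat.sub_zero, Nat.sub_self, t1, t2, iteratedDeriv_zero, hq0, h1,
    show 1 + 1 = 2 from rfl, show 2 + 1 = 3 from rfl, show 2 - 1 = 1 from rfl,
    Nat.choose_zero_right, Nat.choose_self, Nat.choose_one_right, iteratedDeriv_one] at s2 s3
  push_cast at s2 s3
  -- the Carathéodory function
  set P : ℂ → ℂ := fun z => 8 / 3 * (G z - 5 / 8) with hP
  have hPd : DifferentiableOn ℂ P (ball 0 1) := (hGd.sub_const _).const_mul _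
  have hP0 : P 0 = 1 := by simp [hP, hG0]; norm_num
  have hPre : ∀ z ∈ ball (0 : ℂ) 1, 0 ≤ (P z).re := by
    intro z hz
    have h5 := hGre z hz
    have h6 : (P z).re = 8 / 3 * ((G z).re - 5 / 8) := by
      simp only [hP]
      rw [show (8 / 3 : ℂ) = ((8 / 3 : ℝ) : ℂ) by push_cast; ring, re_ofReal_mul, sub_re]
      norm_num
    rw [h6]
    linarith
  obtain ⟨c1, c2⟩ := caratheodory hPd hP0 hPre
  have hPk : ∀ k : ℕ, 0 < k → iteratedDeriv k P 0 = 8 / 3 * iteratedDeriv k G 0 := by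
    intro k hk
    have hsub : iteratedDeriv k (fun z => G z - 5 / 8) 0
        = iteratedDeriv k G 0 - iteratedDeriv k (fun _ : ℂ => (5 / 8 : ℂ)) 0 :=
      iteratedDeriv_fun_sub hGa.contDiffAt contDiffAt_const
    rw [hP, iteratedDeriv_const_mul_field, hsub, iteratedDeriv_const, if_neg hk.ne', sub_zero]
  have k1 : coeff P 1 / 2 = 4 / 3 * deriv G 0 := by
    rw [coeff, hPk 1 one_pos, iteratedDeriv_one]
    simp [Nat.factorial]; ring
  have k2 : coeff P 2 / 2 = 2 / 3 * iteratedDeriv 2 G 0 := by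
    rw [coeff, hPk 2 two_pos]
    simp [Nat.factorial]; ring
  have k3 : coeff P 3 / 2 = 2 / 9 * iteratedDeriv 3 G 0 := by
    rw [coeff, hPk 3 (by norm_num)]
    simp [Nat.factorial]; ring
  have k4 : coeff P 4 / 2 = 1 / 18 * iteratedDeriv 4 G 0 := by
    rw [coeff, hPk 4 (by norm_num)]
    simp [Nat.factorial]; ring
  have b2 := c1 2 (by norm_num)
  have b3 := c1 3 (by norm_num)
  have b4 := c1 4 (by norm_num)
  rw [k2] at b2
  rw [k3] at b3
  rw [k4] at b4
  rw [k1, k2] at c2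
  have Q1 : deriv q 0 = -(4 / 3 * deriv G 0) := by linear_combination 4 / 3 * r1
  have Q2 : iteratedDeriv 2 q 0
      = -2 * (iteratedDeriv 2 G 0 + 2 * deriv G 0 * deriv q 0) := by
    linear_combination 2 * r2
  have Q3 : iteratedDeriv 3 q 0 = -4 * (iteratedDeriv 3 G 0 + 3 * deriv G 0 * iteratedDeriv 2 q 0
      + 3 * iteratedDeriv 2 G 0 * deriv q 0) := by
    linear_combination 4 * r3
  have hres : (1 / 18 * iteratedDeriv 4 G 0) - 3 / 2 * (2 / 3 * iteratedDeriv 2 G 0) ^ 2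
      - 4 * (4 / 3 * deriv G 0) * (2 / 9 * iteratedDeriv 3 G 0)
      + 9 * (4 / 3 * deriv G 0) ^ 2 * (2 / 3 * iteratedDeriv 2 G 0)
      - 9 / 2 * (4 / 3 * deriv G 0) ^ 4 = 0 := by
    rw [Q3, Q2, Q1] at r4
    linear_combination 1 / 18 * r4
  have hfin := final_bound b3 b4 b2 c2 hres
  have hPhi : Phi f 1 = 3 / 4 * (2 / 3 * iteratedDeriv 2 G 0 - (4 / 3 * deriv G 0) ^ 2) := by
    have e2 : iteratedDeriv 2 f 0 = -2 * deriv q 0 := by linear_combination -s2
    have e3 : iteratedDeriv 3 f 0 = 6 * deriv q 0 ^ 2 - 3 / 2 * iteratedDeriv 2 q 0 := by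
      rw [e2] at s3
      linear_combination -1 / 2 * s3
    unfold Phi coeff
    rw [e2, e3, Q2, Q1]
    simp [Nat.factorial]
    ring
  rw [hPhi, norm_mul]
  have e34 : ‖(3 / 4 : ℂ)‖ = 3 / 4 := by norm_num
  rw [e34]
  linarith

/-- The identity belongs to `M_{0,5/4}`. -/
lemma id_mem : (fun z : ℂ => z) ∈ classM 0 (5 / 4) := by
  have h1 : deriv (fun z : ℂ => z) = fun _ => 1 := by funext z; simp
  refine ⟨⟨differentiableOn_id, rfl, by rw [h1]⟩, fun _ z _ hz => hz, fun _ z _ => by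
    rw [h1]; exact one_ne_zero, fun z _ => ?_⟩
  have h2 : gFun 0 (5 / 4) (fun z : ℂ => z) z = 1 := by
    unfold gFun
    rw [h1]
    by_cases hz0 : z = 0
    · rw [if_pos hz0, if_pos hz0]; norm_num
    · rw [if_neg hz0, if_neg hz0, mul_one, div_self hz0]; norm_num
  rw [h2]
  norm_num

/-- **Theorem.** `(0, 5/4) ∈ R`, the bound for `λ = 1` is `max(μ, |1 - λ|) = 3/4`, but every
`f ∈ M_{0,5/4}` satisfies `|a₃ - a₂²| ≤ 143/192 < 3/4`. In particular the bound is not sharp for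
every `(α, β) ∈ R`. -/
theorem result :
    ((0 : ℝ), (5 / 4 : ℝ)) ∈ region ∧ max (mu 0 (5 / 4)) ‖(1 : ℂ) - 1‖ = 3 / 4 ∧
      (classM 0 (5 / 4)).Nonempty ∧ (∀ f ∈ classM 0 (5 / 4), ‖Phi f 1‖ ≤ 143 / 192) ∧
      (143 / 192 : ℝ) < 3 / 4 := by
  refine ⟨?_, ?_, ⟨_, id_mem⟩, fun f hf => main_bound hf, by norm_num⟩
  · constructor <;> norm_num
  · unfold mu
    norm_num

end Pool.Agent.Results.MP_dfd3b8_an.NotSharp
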